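import Mathlib

/-!
# Non completely regular monoid varieties with modular subvariety lattice:
# completely regular subvarieties are commutative

Monoid varieties are represented by fully invariant congruences on the free monoid.
-/

namespace MV4

/-- words -/
abbrev Wd := FreeMonoid ℕ

/-- full invariance -/
def Fic (r : Con Wd) : Prop := ∀ (φ : Wd →* Wd) (u v : Wd), r u v → r (φ u) (φ v)

/-- letters -/
abbrev lt (i : ℕ) : Wd := FreeMonoid.of i

theorem of_ne_one (i : ℕ) : (FreeMonoid.of i : Wd) ≠ 1 := by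
  intro h
  exact List.cons_ne_nil _ _ (congrArg FreeMonoid.toList h)

/-- `F` is closed under factors -/
def FacClosed (F : Set Wd) : Prop := ∀ u v : Wd, u * v ∈ F → u ∈ F ∧ v ∈ F

/-- the largest fully invariant congruence for which the words of `F` are isoterms -/
def isoCon (F : Set Wd) (hF : FacClosed F) : Con Wd where
  r u v := ∀ φ : Wd →* Wd, ∀ w ∈ F, (φ u = w ↔ φ v = w)
  iseqv := ⟨fun _ _ _ _ => Iff.rfl, fun h φ w hw => (h φ w hw).symm,
    fun h1 h2 φ w hw => (h1 φ w hw).trans (h2 φ w hw)⟩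
  mul' := by
    intro a b c d h1 h2 φ w hw
    constructor
    · intro h
      rw [map_mul] at h ⊢
      rw [← h] at hw
      obtain ⟨ha, hc⟩ := hF _ _ hw
      rw [(h1 φ (φ a) ha).1 rfl, (h2 φ (φ c) hc).1 rfl, h]
    · intro h
      rw [map_mul] at h ⊢
      rw [← h] at hw
      obtain ⟨hb, hd⟩ := hF _ _ hw
      rw [(h1 φ (φ b) hb).2 rfl, (h2 φ (φ d) hd).2 rfl, h]

theorem isoCon_iff {F : Set Wd} {hF : FacClosed F} {u v : Wd} :
    isoCon F hF u v ↔ ∀ φ : Wd →* Wd, ∀ w ∈ F, (φ u = w ↔ φ v = w) := Iff.rfl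

theorem isoCon_fic (F : Set Wd) (hF : FacClosed F) : Fic (isoCon F hF) := by
  intro φ u v h ψ w hw
  exact h (ψ.comp φ) w hw

/-- `{1, x₀}` -/
def F1 : Set Wd := {w | w = 1 ∨ w = lt 0}

/-- the factors of `x₀ x₁` -/
def F2 : Set Wd := {w | w = 1 ∨ w = lt 0 ∨ w = lt 1 ∨ w = lt 0 * lt 1}

theorem list_app_one {u v : List ℕ} {i : ℕ} (h : u ++ v = [i]) :
    (u = [] ∧ v = [i]) ∨ (u = [i] ∧ v = []) := by
  rcases u with _ | ⟨a, u⟩
  · left; exact ⟨rfl, h⟩
  · rw [List.cons_append, List.cons.injEq, List.append_eq_nil_iff] at h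
    obtain ⟨rfl, rfl, rfl⟩ := h
    right; exact ⟨rfl, rfl⟩

theorem list_app_two {u v : List ℕ} {i j : ℕ} (h : u ++ v = [i, j]) :
    (u = [] ∧ v = [i, j]) ∨ (u = [i] ∧ v = [j]) ∨ (u = [i, j] ∧ v = []) := by
  rcases u with _ | ⟨a, u⟩
  · left; exact ⟨rfl, h⟩
  · rw [List.cons_append, List.cons.injEq] at h
    obtain ⟨rfl, h2⟩ := h
    rcases list_app_one h2 with ⟨rfl, rfl⟩ | ⟨rfl, rfl⟩
    · right; left; exact ⟨rfl, rfl⟩
    · right; right; exact ⟨rfl, rfl⟩

theorem mul_eq_of {u v : Wd} {i : ℕ} (h : u * v = lt i) :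
    (u = 1 ∧ v = lt i) ∨ (u = lt i ∧ v = 1) := by
  have h' : FreeMonoid.toList u ++ FreeMonoid.toList v = [i] := h
  exact list_app_one h'

theorem mul_eq_one' {u v : Wd} (h : u * v = 1) : u = 1 ∧ v = 1 := by
  have h' : FreeMonoid.toList u ++ FreeMonoid.toList v = [] := h
  exact List.append_eq_nil_iff.1 h'

theorem mul_eq_two {u v : Wd} (h : u * v = lt 0 * lt 1) :
    (u = 1 ∧ v = lt 0 * lt 1) ∨ (u = lt 0 ∧ v = lt 1) ∨ (u = lt 0 * lt 1 ∧ v = 1) := by
  have h' : FreeMonoid.toList u ++ FreeMonoid.toList v = [0, 1] := h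
  exact list_app_two h'

theorem F1_fac : FacClosed F1 := by
  rintro u v (h | h)
  · obtain ⟨rfl, rfl⟩ := mul_eq_one' h
    exact ⟨Or.inl rfl, Or.inl rfl⟩
  · rcases mul_eq_of h with ⟨rfl, rfl⟩ | ⟨rfl, rfl⟩
    · exact ⟨Or.inl rfl, Or.inr rfl⟩
    · exact ⟨Or.inr rfl, Or.inl rfl⟩

theorem F2_fac : FacClosed F2 := by
  rintro u v (h | h | h | h)
  · obtain ⟨rfl, rfl⟩ := mul_eq_one' h
    exact ⟨Or.inl rfl, Or.inl rfl⟩
  · rcases mul_eq_of h with ⟨rfl, rfl⟩ | ⟨rfl, rfl⟩
    · exact ⟨Or.inl rfl, Or.inr (Or.inl rfl)⟩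
    · exact ⟨Or.inr (Or.inl rfl), Or.inl rfl⟩
  · rcases mul_eq_of h with ⟨rfl, rfl⟩ | ⟨rfl, rfl⟩
    · exact ⟨Or.inl rfl, Or.inr (Or.inr (Or.inl rfl))⟩
    · exact ⟨Or.inr (Or.inr (Or.inl rfl)), Or.inl rfl⟩
  · rcases mul_eq_two h with ⟨rfl, rfl⟩ | ⟨rfl, rfl⟩ | ⟨rfl, rfl⟩
    · exact ⟨Or.inl rfl, Or.inr (Or.inr (Or.inr rfl))⟩
    · exact ⟨Or.inr (Or.inl rfl), Or.inr (Or.inr (Or.inl rfl))⟩
    · exact ⟨Or.inr (Or.inr (Or.inr rfl)), Or.inl rfl⟩

/-- the identities of `C₂ = var {x² = x³, xy = yx}` -/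
def cC2 : Con Wd := isoCon F1 F1_fac

/-- the identities of `D₁ = var M(xy)` -/
def cD1 : Con Wd := isoCon F2 F2_fac

/-- the substitution `i ↦ w`, all other letters to `1` -/
def sub1 (i : ℕ) (w : Wd) : Wd →* Wd := FreeMonoid.lift fun j => if j = i then w else 1

@[simp] theorem sub1_of (i j : ℕ) (w : Wd) : sub1 i w (lt j) = if j = i then w else 1 := by
  simp [sub1]

theorem sub1_eq (i : ℕ) (w : Wd) (u : Wd) : sub1 i w u = w ^ (List.count i (FreeMonoid.toList u)) := by
  induction u using FreeMonoid.inductionOn' with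
  | one => simp
  | of_mul a u ih =>
    rw [map_mul, ih, sub1_of]
    have h1 : FreeMonoid.toList (FreeMonoid.of a * u) = a :: FreeMonoid.toList u := rfl
    rw [h1, List.count_cons]
    by_cases h : a = i
    · rw [if_pos h, h]; simp [pow_succ']
    · rw [if_neg h]; simp [h]

/-- completely regular -/
def IsCR (r : Con Wd) : Prop := ∃ n : ℕ, 1 ≤ n ∧ r (lt 0 ^ (n + 1)) (lt 0)

theorem pow_injective' (i : ℕ) {m n : ℕ} (h : (lt i : Wd) ^ m = lt i ^ n) : m = n := by
  have h1 : ∀ m : ℕ, (FreeMonoid.toList ((lt i : Wd) ^ m)).length = m := by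
    intro m
    induction m with
    | zero => simp
    | succ m ih => rw [pow_succ, FreeMonoid.toList_mul, List.length_append, ih]; simp
  rw [← h1 m, ← h1 n, h]

/-- a variety which is not completely regular contains `C₂` -/
theorem le_cC2 {r : Con Wd} (hr : Fic r) (hcr : ¬ IsCR r) : r ≤ cC2 := by
  -- key fact: exponents in `{0}`, `{1}` are rigid
  have key : ∀ m n : ℕ, r (lt 0 ^ m) (lt 0 ^ n) → ∀ c ≤ 1, m = c → n = c := by
    intro m n h c hc hm
    by_contra hn
    apply hcr
    subst hm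
    -- multiply by `x^{1 - m}`
    have h2 : r (lt 0 ^ (1 - m) * lt 0 ^ m) (lt 0 ^ (1 - m) * lt 0 ^ n) := r.mul (r.refl _) h
    rw [← pow_add, ← pow_add] at h2
    have e1 : 1 - m + m = 1 := by omega
    rw [e1, pow_one] at h2
    rcases Nat.lt_or_ge (1 - m + n) 2 with h3 | h3
    · -- then `m = 1`, `n = 0`
      have h4 : m = 1 ∧ n = 0 := by omega
      obtain ⟨rfl, rfl⟩ := h4
      refine ⟨1, le_refl _, ?_⟩
      have h5 : r (lt 0) 1 := by simpa using h
      have h6 := r.mul h5 h5
      have h7 := r.trans h6 (r.symm (by simpa using h5))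
      have : (lt 0 : Wd) ^ (1 + 1) = lt 0 * lt 0 := pow_two _
      rw [this]; exact h7
    · refine ⟨1 - m + n - 1, by omega, ?_⟩
      have e2 : 1 - m + n - 1 + 1 = 1 - m + n := by omega
      rw [e2]; exact r.symm h2
  -- one direction
  have main : ∀ u v : Wd, r u v → ∀ w ∈ F1, u = w → v = w := by
    intro u v huv w hw hu
    have hc : ∀ i, List.count i (FreeMonoid.toList v) = List.count i (FreeMonoid.toList u) := by
      intro i
      have h1 := hr (sub1 i (lt 0)) u v huv
      rw [sub1_eq, sub1_eq] at h1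
      refine key _ _ h1 (List.count i (FreeMonoid.toList u)) ?_ rfl
      rcases hw with rfl | rfl
      · rw [hu]; exact Nat.zero_le _
      · rw [hu]
        have : FreeMonoid.toList (lt 0) = [0] := rfl
        rw [this, List.count_singleton]
        split_ifs <;> omega
    have hp : (FreeMonoid.toList v).Perm (FreeMonoid.toList u) := List.perm_iff_count.2 hc
    rcases hw with rfl | rfl
    · rw [hu] at hp
      exact List.perm_nil.1 hp
    · rw [hu] at hp
      exact List.perm_singleton.1 hp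
  intro u v huv φ w hw
  exact ⟨main _ _ (hr φ u v huv) w hw, main _ _ (r.symm (hr φ u v huv)) w hw⟩

/-- counts of letters under `C₂` -/
theorem count_of_cC2 {u v : Wd} (h : cC2 u v) {i : ℕ}
    (hi : List.count i (FreeMonoid.toList u) ≤ 1) :
    List.count i (FreeMonoid.toList v) = List.count i (FreeMonoid.toList u) := by
  have h1 := h (sub1 i (lt 0)) (sub1 i (lt 0) u) ?_
  · have h2 := h1.1 rfl
    rw [sub1_eq, sub1_eq] at h2
    exact pow_injective' 0 h2
  · rw [sub1_eq]
    rcases Nat.le_one_iff_eq_zero_or_eq_one.1 hi with h0 | h0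
    · rw [h0, pow_zero]; exact Or.inl rfl
    · rw [h0, pow_one]; exact Or.inr rfl

/-- `C₂ ∨ G` contains `D₁` if `G` is not commutative -/
theorem inf_le_cD1 {g : Con Wd} (hg : Fic g) (hnc : ¬ g (lt 0 * lt 1) (lt 1 * lt 0)) :
    g ⊓ cC2 ≤ cD1 := by
  have main : ∀ u v : Wd, g u v → cC2 u v → ∀ w ∈ F2, u = w → v = w := by
    intro u v hguv hcuv w hw hu
    have hc : ∀ i, List.count i (FreeMonoid.toList v) = List.count i (FreeMonoid.toList u) := by
      intro i
      refine count_of_cC2 hcuv ?_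
      rw [hu]
      rcases hw with rfl | rfl | rfl | rfl
      · exact Nat.zero_le _
      · have : FreeMonoid.toList (lt 0) = [0] := rfl
        rw [this, List.count_singleton]; split_ifs <;> omega
      · have : FreeMonoid.toList (lt 1) = [1] := rfl
        rw [this, List.count_singleton]; split_ifs <;> omega
      · have : FreeMonoid.toList (lt 0 * lt 1) = [0, 1] := rfl
        rw [this, List.count_cons, List.count_singleton]
        by_cases h0 : i = 0
        · subst h0; simp
        · have h0' : ¬ (0 = i) := fun h => h0 h.symm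
          by_cases h1 : i = 1
          · subst h1; simp
          · have h1' : ¬ (1 = i) := fun h => h1 h.symm
            simp [h0', h1']
    have hp : (FreeMonoid.toList v).Perm (FreeMonoid.toList u) := List.perm_iff_count.2 hc
    rcases hw with rfl | rfl | rfl | rfl
    · rw [hu] at hp
      exact List.perm_nil.1 hp
    · rw [hu] at hp
      exact List.perm_singleton.1 hp
    · rw [hu] at hp
      exact List.perm_singleton.1 hp
    · rw [hu] at hp hguv
      have hp' : (FreeMonoid.toList v).Perm [0, 1] := hp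
      have hv : FreeMonoid.toList v = [0, 1] ∨ FreeMonoid.toList v = [1, 0] := by
        have hl := hp'.length_eq
        generalize FreeMonoid.toList v = l at hp' hl
        match l, hl with
        | [a, b], _ =>
          have ha : a ∈ [0, 1] := hp'.subset (by simp)
          have hb : b ∈ [0, 1] := hp'.subset (by simp)
          have hnd : [a, b].Nodup := hp'.nodup_iff.2 (by simp)
          simp only [List.mem_cons, List.not_mem_nil, or_false] at ha hb
          rcases ha with rfl | rfl <;> rcases hb with rfl | rfl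
          · simp at hnd
          · left; rfl
          · right; rfl
          · simp at hnd
      rcases hv with hv | hv
      · exact hv
      · exfalso
        have : v = lt 1 * lt 0 := hv
        rw [this] at hguv
        exact hnc hguv
  intro u v huv φ w hw
  have h1 : g u v := huv.1
  have h2 : cC2 u v := huv.2
  exact ⟨main _ _ (hg φ u v h1) (isoCon_fic _ _ φ u v h2) w hw,
    main _ _ (g.symm (hg φ u v h1)) (cC2.symm (isoCon_fic _ _ φ u v h2)) w hw⟩

theorem sq_notin_F2 {w : Wd} (hw : w * w ∈ F2) : w = 1 := by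
  have hlist : ∀ l : List ℕ, (l ++ l = [] ∨ l ++ l = [0] ∨ l ++ l = [1] ∨ l ++ l = [0, 1]) →
      l = [] := by
    intro l hl
    rcases l with _ | ⟨a, l⟩
    · rfl
    · exfalso
      rcases l with _ | ⟨b, l⟩
      · simp at hl; omega
      · rcases hl with hl | hl | hl | hl
        · simp at hl
        · have := congrArg List.length hl; simp at this
        · have := congrArg List.length hl; simp at this
        · have := congrArg List.length hl; simp at this
  exact hlist (FreeMonoid.toList w) hw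

theorem pow_notin_F2 {w : Wd} {k : ℕ} (hk : 2 ≤ k) (hw : w ^ k ∈ F2) : w = 1 := by
  obtain ⟨m, rfl⟩ := Nat.exists_eq_add_of_le hk
  rw [pow_add, pow_two] at hw
  exact sq_notin_F2 (F2_fac _ _ hw).1

/-- squaring of the letters -/
def sq : Wd →* Wd := FreeMonoid.lift fun j => lt j * lt j

@[simp] theorem sq_of (j : ℕ) : sq (lt j) = lt j * lt j := by simp [sq]

/-- the image of `sq u` is `1` or not in `F2` -/
theorem sq_image (φ : Wd →* Wd) (u : Wd) :
    ((∀ j ∈ FreeMonoid.toList u, φ (lt j) = 1) → φ (sq u) = 1) ∧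
      (¬ (∀ j ∈ FreeMonoid.toList u, φ (lt j) = 1) → φ (sq u) ∉ F2) := by
  constructor
  · intro h
    induction u using FreeMonoid.inductionOn' with
    | one => simp
    | of_mul a u ih =>
      have h1 : FreeMonoid.toList (FreeMonoid.of a * u) = a :: FreeMonoid.toList u := rfl
      rw [h1] at h
      rw [map_mul, map_mul, ih (fun j hj => h j (List.mem_cons_of_mem _ hj)), sq_of, map_mul,
        h a (List.mem_cons_self ..)]
      simp
  · intro h hF
    apply h
    clear h
    induction u using FreeMonoid.inductionOn' with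
    | one => intro j hj; exact absurd hj (List.not_mem_nil)
    | of_mul a u ih =>
      rw [map_mul, map_mul, sq_of, map_mul] at hF
      obtain ⟨hF1, hF2⟩ := F2_fac _ _ hF
      have h1 : FreeMonoid.toList (FreeMonoid.of a * u) = a :: FreeMonoid.toList u := rfl
      rw [h1]
      intro j hj
      rcases List.mem_cons.1 hj with rfl | hj
      · -- `φ a * φ a ∈ F2`
        exact sq_notin_F2 hF1
      · exact ih hF2 j hj

theorem sq_cD1 {u v : Wd} (h : ∀ j, j ∈ FreeMonoid.toList u ↔ j ∈ FreeMonoid.toList v) :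
    cD1 (sq u) (sq v) := by
  intro φ w hw
  by_cases hu : ∀ j ∈ FreeMonoid.toList u, φ (lt j) = 1
  · have hv : ∀ j ∈ FreeMonoid.toList v, φ (lt j) = 1 := fun j hj => hu j ((h j).2 hj)
    rw [(sq_image φ u).1 hu, (sq_image φ v).1 hv]
  · have hv : ¬ ∀ j ∈ FreeMonoid.toList v, φ (lt j) = 1 := fun h' =>
      hu fun j hj => h' j ((h j).1 hj)
    have h1 := (sq_image φ u).2 hu
    have h2 := (sq_image φ v).2 hv
    exact ⟨fun h3 => absurd (h3 ▸ hw) (by rw [← h3] at hw; exact absurd hw h1),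
      fun h3 => absurd (h3 ▸ hw) (by rw [← h3] at hw; exact absurd hw h2)⟩

/-- a congruence which identifies every letter with its square -/
theorem rel_sq {t : Con Wd} (h : ∀ j, t (lt j) (lt j * lt j)) (u : Wd) : t u (sq u) := by
  induction u using FreeMonoid.inductionOn' with
  | one => simpa using t.refl 1
  | of_mul a u ih =>
    have e : sq (FreeMonoid.of a * u) = (lt a * lt a) * sq u := by rw [map_mul, sq_of]
    rw [e]
    exact t.mul (h a) ih

/-- `C₂ ∧ G = D₁ ∧ G` -/
theorem cC2_le_sup {g : Con Wd} (hg : Fic g) (hcr : IsCR g) : cC2 ≤ cD1 ⊔ g := by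
  intro u v huv
  have h1 : ∀ j, (cD1 ⊔ g) (lt j) (lt j * lt j) := by
    intro j
    obtain ⟨n, hn, hx⟩ := hcr
    have h2 : g (lt j ^ (n + 1)) (lt j) := by
      have := hg (FreeMonoid.lift fun _ => lt j) _ _ hx
      simpa using this
    have h3 : cD1 (lt j ^ (n + 1)) (lt j * lt j) := by
      intro φ w hw
      rw [map_pow, map_mul]
      constructor
      · intro h
        rw [← h] at hw
        have h1 : φ (lt j) = 1 := pow_notin_F2 (by omega) hw
        rw [← h, h1]; simp
      · intro h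
        rw [← h] at hw
        have h1 : φ (lt j) = 1 := sq_notin_F2 hw
        rw [← h, h1]; simp
    have h4 : (cD1 ⊔ g) (lt j) (lt j ^ (n + 1)) := (le_sup_right : g ≤ cD1 ⊔ g) (g.symm h2)
    exact (cD1 ⊔ g).trans h4 ((le_sup_left : cD1 ≤ cD1 ⊔ g) h3)
  have hc : ∀ j, j ∈ FreeMonoid.toList u ↔ j ∈ FreeMonoid.toList v := by
    intro j
    have key : ∀ a b : Wd, cC2 a b → List.count j (FreeMonoid.toList a) = 0 →
        List.count j (FreeMonoid.toList b) = 0 := by
      intro a b hab h0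
      rw [count_of_cC2 hab (by omega), h0]
    rw [← List.count_pos_iff, ← List.count_pos_iff]
    constructor
    · intro h
      by_contra h'
      have := key v u (cC2.symm huv) (by omega)
      omega
    · intro h
      by_contra h'
      have := key u v huv (by omega)
      omega
  have h5 : (cD1 ⊔ g) (sq u) (sq v) := (le_sup_left : cD1 ≤ cD1 ⊔ g) (sq_cD1 hc)
  exact (cD1 ⊔ g).trans (rel_sq h1 u) ((cD1 ⊔ g).trans h5 ((cD1 ⊔ g).symm (rel_sq h1 v)))

theorem not_cD1_comm : ¬ cD1 (lt 0 * lt 1) (lt 1 * lt 0) := by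
  intro h
  have h1 := (h (MonoidHom.id _) (lt 0 * lt 1) (Or.inr (Or.inr (Or.inr rfl)))).1 rfl
  have h2 : ([1, 0] : List ℕ) = [0, 1] := h1
  simp at h2

theorem cC2_comm : cC2 (lt 0 * lt 1) (lt 1 * lt 0) := by
  intro φ w hw
  rw [map_mul, map_mul]
  have key : ∀ a b : Wd, a * b = w → b * a = w := by
    intro a b h
    rcases hw with rfl | rfl
    · obtain ⟨rfl, rfl⟩ := mul_eq_one' h; rfl
    · rcases mul_eq_of h with ⟨rfl, rfl⟩ | ⟨rfl, rfl⟩ <;> simp
  exact ⟨key _ _, key _ _⟩

theorem cD1_le_cC2 : cD1 ≤ cC2 := by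
  intro u v h φ w hw
  refine h φ w ?_
  rcases hw with rfl | rfl
  · exact Or.inl rfl
  · exact Or.inr (Or.inl rfl)

/-- **(B1).** Let `r` be the theory of a monoid variety which is not completely regular and whose
subvariety lattice is modular. Then every completely regular subvariety is commutative. -/
theorem B1 {r : Con Wd} (hr : Fic r) (hcr : ¬ IsCR r)
    (hmod : ∀ a b c : Con Wd, Fic a → Fic b → Fic c → r ≤ a → r ≤ b → r ≤ c → a ≤ c →
      (a ⊔ b) ⊓ c ≤ a ⊔ (b ⊓ c))
    {g : Con Wd} (hg : Fic g) (hrg : r ≤ g) (hgcr : IsCR g) : g (lt 0 * lt 1) (lt 1 * lt 0) := by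
  by_contra hnc
  have h1 : r ≤ cC2 := le_cC2 hr hcr
  have h2 : g ⊓ cC2 ≤ cD1 := inf_le_cD1 hg hnc
  have h3 : r ≤ cD1 := (le_inf hrg h1).trans h2
  have h4 := hmod cD1 g cC2 (isoCon_fic _ _) hg (isoCon_fic _ _) h3 hrg h1 cD1_le_cC2
  have h5 : cC2 ≤ (cD1 ⊔ g) ⊓ cC2 := le_inf (cC2_le_sup hg hgcr) le_rfl
  have h6 : cC2 ≤ cD1 := (h5.trans h4).trans (sup_le le_rfl h2)
  exact not_cD1_comm (h6 cC2_comm)

end MV4
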