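import Pool.Agent.Helper14_MV.Bridge
import Pool.Agent.Helper4_MV.B1

/-!
# Isoterms, and theorem (B1) for fully invariant congruences

`iso I hI` (for a set `I` of words closed under factors) is the theory of the Rees quotient
monoid `M(I)`.
-/

namespace Pool.Agent.Helper14_MV

open MV4

/-- `I` is closed under factors -/
def Fac (I : Set Word) : Prop := ∀ u v : Word, u * v ∈ I → u ∈ I ∧ v ∈ I

/-- the largest fully invariant congruence for which the words of `I` are isoterms -/
def iso (I : Set Word) (hI : Fac I) : FIC where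
  r := fun u v => ∀ φ : Word →* Word, ∀ w ∈ I, (φ u = w ↔ φ v = w)
  refl := fun _ _ _ _ => Iff.rfl
  symm := fun h φ w hw => (h φ w hw).symm
  trans := fun h1 h2 φ w hw => (h1 φ w hw).trans (h2 φ w hw)
  mul := by
    intro a b c d h1 h2 φ w hw
    exact (isoCon I hI).mul (w := a) (x := b) (y := c) (z := d) h1 h2 φ w hw
  sub := fun ψ _ _ h φ w hw => h (φ.comp ψ) w hw

theorem iso_iff {I : Set Word} {hI : Fac I} {u v : Word} :
    (iso I hI).r u v ↔ ∀ φ : Word →* Word, ∀ w ∈ I, (φ u = w ↔ φ v = w) := Iff.rfl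

/-- the other description -/
theorem iso_iff' {I : Set Word} {hI : Fac I} {u v : Word} :
    (iso I hI).r u v ↔ ∀ φ : Word →* Word, (φ u ∈ I ∨ φ v ∈ I) → φ u = φ v := by
  constructor
  · rintro h φ (h1 | h1)
    · exact ((h φ _ h1).1 rfl).symm
    · exact (h φ _ h1).2 rfl
  · intro h φ w hw
    constructor
    · intro h1
      rw [← h φ (Or.inl (h1 ▸ hw)), h1]
    · intro h1
      rw [h φ (Or.inr (h1 ▸ hw)), h1]

/-- `w` is an isoterm for `ρ` -/
def Isoterm (ρ : FIC) (w : Word) : Prop := ∀ v : Word, ρ.r w v → v = w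

theorem iso_isoterm {I : Set Word} {hI : Fac I} {w : Word} (hw : w ∈ I) :
    Isoterm (iso I hI) w := fun _ h => (h (MonoidHom.id _) w hw).1 rfl

/-- `ρ ≤ iso I` iff all words of `I` are isoterms for `ρ` -/
theorem le_iso_iff {I : Set Word} {hI : Fac I} {ρ : FIC} :
    ρ ≤ iso I hI ↔ ∀ w ∈ I, Isoterm ρ w := by
  constructor
  · intro h w hw v hv
    exact iso_isoterm hw v (h _ _ hv)
  · intro h u v huv φ w hw
    constructor
    · intro h1
      exact h w hw _ (by rw [← h1]; exact ρ.sub φ huv)
    · intro h1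
      exact h w hw _ (by rw [← h1]; exact ρ.sub φ (ρ.symm huv))

/-- if `I` contains no nonempty square then identities both sides of which contain a square of
each of their letters, with equal values elsewhere, hold: the case of powers -/
theorem iso_pow {I : Set Word} {hI : Fac I} (hsq : ∀ w : Word, w * w ∈ I → w = 1)
    (w : Word) {m n : ℕ} (hm : 2 ≤ m) (hn : 2 ≤ n) : (iso I hI).r (w ^ m) (w ^ n) := by
  have key : ∀ (v : Word) (k : ℕ), 2 ≤ k → v ^ k ∈ I → v = 1 := by
    intro v k hk hv
    obtain ⟨j, rfl⟩ := Nat.exists_eq_add_of_le hk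
    rw [pow_add, pow_two] at hv
    exact hsq v (hI _ _ hv).1
  intro φ t ht
  rw [map_pow, map_pow]
  constructor
  · intro h
    rw [← h] at ht
    rw [← h, key _ m hm ht, one_pow, one_pow]
  · intro h
    rw [← h] at ht
    rw [← h, key _ n hn ht, one_pow, one_pow]

/-- `{1, x}` -/
theorem fac_one : Fac F1 := F1_fac

/-- the factors of `xy` -/
theorem fac_two : Fac F2 := F2_fac

/-- the theory of `C₂` -/
def thC2 : FIC := iso F1 fac_one

/-- the theory of `D₁` -/
def thD1 : FIC := iso F2 fac_two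

theorem FIC.con_fic (ρ : FIC) : Fic ρ.con := fun φ _ _ h => ρ.sub φ h

/-- a fully invariant congruence in the sense of `MV4` -/
def ofCon (c : Con Word) (hc : Fic c) : FIC where
  r := c
  refl := c.refl
  symm := c.symm
  trans := c.trans
  mul := c.mul
  sub := fun φ _ _ h => hc φ _ _ h

/-- not completely regular varieties contain `C₂` -/
theorem le_thC2 {β : FIC} (h : ∀ n : ℕ, 1 ≤ n → ¬ β.r (lx ^ (n + 1)) lx) : β ≤ thC2 := by
  have h1 : β.con ≤ cC2 := le_cC2 β.con_fic (by rintro ⟨n, hn, h2⟩; exact h n hn h2)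
  exact fun u v huv => h1 huv

/-- **(B1).** Let `β` be the theory of a monoid variety which is not completely regular and whose
subvariety lattice is modular. Then every completely regular subvariety is commutative. -/
theorem B1 (β : FIC) (h : ModF β) (hcr : ∀ n : ℕ, 1 ≤ n → ¬ β.r (lx ^ (n + 1)) lx)
    (γ : FIC) (hle : β ≤ γ) (n : ℕ) (hn : 1 ≤ n) (hg : γ.r (lx ^ (n + 1)) lx) :
    γ.r (lx * ly) (ly * lx) := by
  refine MV4.B1 (r := β.con) β.con_fic ?_ ?_ (g := γ.con) γ.con_fic (fun u v huv => hle u v huv)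
    ⟨n, hn, hg⟩
  · rintro ⟨n, hn, h2⟩
    exact hcr n hn h2
  · intro a b c ha hb hc hra hrb hrc hac
    intro u v huv
    have hk : ∀ d : Con Word, ∀ hd : Fic d, β.con ≤ d → β ≤ ofCon d hd := fun d hd hh u v h =>
      hh h
    have h1 := h (ofCon a ha) (ofCon b hb) (ofCon c hc) (hk a ha hra) (hk b hb hrb) (hk c hc hrc)
      (fun u v h => hac h) u v ?_ huv.2
    · clear huv
      induction h1 with
      | refl => exact (a ⊔ (b ⊓ c)).refl _
      | tail _ h2 ih =>
        refine (a ⊔ (b ⊓ c)).trans ih ?_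
        rcases h2 with h2 | h2
        · exact (le_sup_left : a ≤ a ⊔ (b ⊓ c)) h2
        · exact (le_sup_right : b ⊓ c ≤ a ⊔ (b ⊓ c)) h2
    · have h3 : a ⊔ b ≤ (FIC.sup (ofCon a ha) (ofCon b hb)).con := by
        refine _root_.sup_le ?_ ?_
        · intro u v h; exact FIC.le_sup_left _ _ u v h
        · intro u v h; exact FIC.le_sup_right _ _ u v h
      exact h3 huv.1

end Pool.Agent.Helper14_MV
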