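import Mathlib

/-!
# Congruences of the additive monoid of natural numbers form a distributive lattice
-/

namespace Pool.Agent.Helper4_MV

/-- congruence of `(ℕ, +)` -/
structure NC where
  r : ℕ → ℕ → Prop
  refl : ∀ a, r a a
  symm : ∀ {a b}, r a b → r b a
  trans : ∀ {a b c}, r a b → r b c → r a c
  add : ∀ {a b} c, r a b → r (a + c) (b + c)

namespace NC

theorem mul_step (θ : NC) {a d : ℕ} (h : θ.r a (a + d)) (k : ℕ) : θ.r a (a + k * d) := by
  induction k with
  | zero => simpa using θ.refl a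
  | succ k ih =>
    have h1 := θ.add (k * d) h
    have h2 : a + d + k * d = a + (k + 1) * d := by ring
    rw [h2] at h1
    exact θ.trans ih h1

/-- a congruence is trivial or given by a threshold and a period -/
theorem rep (θ : NC) : (∀ a b, θ.r a b → a = b) ∨
    ∃ q n : ℕ, 1 ≤ n ∧ ∀ a b, θ.r a b ↔ a = b ∨ (q ≤ a ∧ q ≤ b ∧ a ≡ b [MOD n]) := by
  classical
  by_cases htriv : ∀ a b, θ.r a b → a = b
  · exact Or.inl htriv
  right
  push Not at htriv
  obtain ⟨a0, b0, hab0, hne0⟩ := htriv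
  -- threshold
  have hT : ∃ q, ∃ d, 1 ≤ d ∧ θ.r q (q + d) := by
    rcases Nat.lt_or_gt_of_ne hne0 with h | h
    · exact ⟨a0, b0 - a0, by omega, by rw [Nat.add_sub_cancel' h.le]; exact hab0⟩
    · exact ⟨b0, a0 - b0, by omega, by rw [Nat.add_sub_cancel' h.le]; exact θ.symm hab0⟩
  have hP : ∃ n, 1 ≤ n ∧ ∃ a, θ.r a (a + n) := by
    obtain ⟨q, d, hd, h⟩ := hT
    exact ⟨d, hd, q, h⟩
  set q := Nat.find hT with hq
  set n := Nat.find hP with hn
  obtain ⟨d, hd, hqd⟩ := Nat.find_spec hT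
  obtain ⟨hn1, a1, ha1⟩ := Nat.find_spec hP
  rw [← hq] at hqd
  rw [← hn] at hn1 ha1
  have hqn : θ.r q (q + n) := by
    have h1 := θ.mul_step hqd a1
    have h2 : θ.r (q + a1 * d) (q + a1 * d + n) := by
      have h3 : a1 ≤ q + a1 * d := by nlinarith
      have h4 := θ.add (q + a1 * d - a1) ha1
      have e1 : a1 + (q + a1 * d - a1) = q + a1 * d := by omega
      have e2 : a1 + n + (q + a1 * d - a1) = q + a1 * d + n := by omega
      rwa [e1, e2] at h4
    have h5 := θ.add n h1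
    have e3 : q + a1 * d + n = q + n + a1 * d := by ring
    have h6 : θ.r (q + n) (q + a1 * d + n) := h5
    exact θ.trans (θ.trans h1 h2) (θ.symm h6)
  have hup : ∀ a, q ≤ a → θ.r a (a + n) := by
    intro a ha
    have h4 := θ.add (a - q) hqn
    have e1 : q + (a - q) = a := by omega
    have e2 : q + n + (a - q) = a + n := by omega
    rwa [e1, e2] at h4
  have hdown : ∀ a c, θ.r a (a + c) → c = 0 ∨ (q ≤ a ∧ n ∣ c) := by
    intro a c hac
    rcases Nat.eq_zero_or_pos c with hc | hc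
    · exact Or.inl hc
    right
    have hqa : q ≤ a := Nat.find_min' hT ⟨c, hc, hac⟩
    refine ⟨hqa, ?_⟩
    have h1 : c = c % n + (c / n) * n := by
      have := Nat.mod_add_div c n
      rw [Nat.mul_comm] at this
      omega
    have h2 := θ.mul_step (hup (a + c % n) (by omega)) (c / n)
    have e1 : a + c % n + c / n * n = a + c := by omega
    rw [e1] at h2
    have h3 : θ.r a (a + c % n) := θ.trans hac (θ.symm h2)
    rcases Nat.eq_zero_or_pos (c % n) with h0 | h0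
    · exact Nat.dvd_of_mod_eq_zero h0
    · exfalso
      have h4 : n ≤ c % n := Nat.find_min' hP ⟨h0, a, h3⟩
      have h5 := Nat.mod_lt c hn1
      omega
  refine ⟨q, n, hn1, ?_⟩
  have main : ∀ a b, a ≤ b → (θ.r a b ↔ a = b ∨ (q ≤ a ∧ q ≤ b ∧ a ≡ b [MOD n])) := by
    intro a b hab
    obtain ⟨c, rfl⟩ := Nat.exists_eq_add_of_le hab
    constructor
    · intro h
      rcases hdown a c h with rfl | ⟨h1, h2⟩
      · left; rfl
      · right
        refine ⟨h1, by omega, ?_⟩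
        exact (Nat.modEq_iff_dvd' hab).2 (by simpa using h2)
    · rintro (h | ⟨h1, _, h3⟩)
      · rw [← h]; exact θ.refl a
      · have h4 := (Nat.modEq_iff_dvd' hab).1 h3
        rw [Nat.add_sub_cancel_left] at h4
        obtain ⟨k, rfl⟩ := h4
        have := θ.mul_step (hup a h1) k
        rwa [Nat.mul_comm] at this
  intro a b
  rcases le_total a b with h | h
  · exact main a b h
  · constructor
    · intro h1
      rcases (main b a h).1 (θ.symm h1) with h2 | ⟨h2, h3, h4⟩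
      · exact Or.inl h2.symm
      · exact Or.inr ⟨h3, h2, h4.symm⟩
    · rintro (h1 | ⟨h1, h2, h3⟩)
      · rw [h1]; exact θ.refl b
      · exact θ.symm ((main b a h).2 (Or.inr ⟨h2, h1, h3.symm⟩))

theorem gcd_lcm_dvd {n a b d : ℕ} (_hn : 1 ≤ n) (ha : 1 ≤ a) (hb : 1 ≤ b)
    (h1 : Nat.gcd n a ∣ d) (h2 : Nat.gcd n b ∣ d) : Nat.gcd n (Nat.lcm a b) ∣ d := by
  rw [Nat.dvd_iff_prime_pow_dvd_dvd]
  intro p k hp hk
  have hkn : p ^ k ∣ n := hk.trans (Nat.gcd_dvd_left _ _)
  have hkl : p ^ k ∣ Nat.lcm a b := hk.trans (Nat.gcd_dvd_right _ _)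
  have hl : Nat.lcm a b ≠ 0 := Nat.lcm_ne_zero (by omega) (by omega)
  rw [hp.pow_dvd_iff_le_factorization hl, Nat.factorization_lcm (by omega) (by omega)] at hkl
  rw [Finsupp.sup_apply, le_sup_iff] at hkl
  rcases hkl with h | h
  · have h3 : p ^ k ∣ a := (hp.pow_dvd_iff_le_factorization (by omega)).2 h
    exact (Nat.dvd_gcd hkn h3).trans h1
  · have h3 : p ^ k ∣ b := (hp.pow_dvd_iff_le_factorization (by omega)).2 h
    exact (Nat.dvd_gcd hkn h3).trans h2

/-- upper bound for a join -/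
theorem join_le {q1 n1 q2 n2 : ℕ} {R : ℕ → ℕ → Prop}
    (hR : ∀ a b, R a b → (a = b ∨ (q1 ≤ a ∧ q1 ≤ b ∧ a ≡ b [MOD n1])) ∨
      (a = b ∨ (q2 ≤ a ∧ q2 ≤ b ∧ a ≡ b [MOD n2])))
    {a b : ℕ} (h : Relation.ReflTransGen R a b) :
    a = b ∨ (min q1 q2 ≤ a ∧ min q1 q2 ≤ b ∧ a ≡ b [MOD Nat.gcd n1 n2]) := by
  induction h with
  | refl => exact Or.inl rfl
  | @tail c d _ h2 ih =>
    have h3 : c = d ∨ (min q1 q2 ≤ c ∧ min q1 q2 ≤ d ∧ c ≡ d [MOD Nat.gcd n1 n2]) := by
      rcases hR _ _ h2 with (h | ⟨h, h', h''⟩) | (h | ⟨h, h', h''⟩)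
      · exact Or.inl h
      · exact Or.inr ⟨(min_le_left _ _).trans h, (min_le_left _ _).trans h',
          h''.of_dvd (Nat.gcd_dvd_left _ _)⟩
      · exact Or.inl h
      · exact Or.inr ⟨(min_le_right _ _).trans h, (min_le_right _ _).trans h',
          h''.of_dvd (Nat.gcd_dvd_right _ _)⟩
    rcases ih with rfl | ⟨i1, i2, i3⟩
    · exact h3
    · rcases h3 with rfl | ⟨j1, j2, j3⟩
      · exact Or.inr ⟨i1, i2, i3⟩
      · exact Or.inr ⟨i1, j2, i3.trans j3⟩

/-- lower bound for a join: one congruence with threshold `q1` below `a`, the other with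
arbitrary threshold -/
theorem le_join {κ : NC} {q1 n1 q2 n2 : ℕ} (hn1 : 1 ≤ n1) (hn2 : 1 ≤ n2)
    (h1 : ∀ a b, q1 ≤ a → q1 ≤ b → a ≡ b [MOD n1] → κ.r a b)
    (h2 : ∀ a b, q2 ≤ a → q2 ≤ b → a ≡ b [MOD n2] → κ.r a b)
    {a b : ℕ} (ha : min q1 q2 ≤ a) (hb : min q1 q2 ≤ b) (hab : a ≡ b [MOD Nat.gcd n1 n2]) :
    κ.r a b := by
  -- everything is related to something large
  have big : ∀ a, min q1 q2 ≤ a → ∀ k, κ.r a (a + k * (n1 * n2)) := by
    intro a ha k
    rcases le_total q1 q2 with h | h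
    · rw [min_eq_left h] at ha
      refine h1 _ _ ha (by omega) ?_
      have e : k * (n1 * n2) = (k * n2) * n1 := by ring
      rw [e]
      simp [Nat.ModEq]
    · rw [min_eq_right h] at ha
      refine h2 _ _ ha (by omega) ?_
      have e : k * (n1 * n2) = (k * n1) * n2 := by ring
      rw [e]
      simp [Nat.ModEq]
  -- the case of large numbers
  have large : ∀ a b, max q1 q2 ≤ a → a ≤ b → a ≡ b [MOD Nat.gcd n1 n2] → κ.r a b := by
    intro a b ha hle hab
    -- choose c with c ≡ a mod n1 and c ≡ b mod n2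
    obtain ⟨c, hc1, hc2⟩ := Nat.chineseRemainder' hab
    -- make it large
    have hc1' : c + b * (n1 * n2) ≡ a [MOD n1] := by
      have e : b * (n1 * n2) = (b * n2) * n1 := by ring
      rw [e]
      simpa [Nat.ModEq] using hc1
    have hc2' : c + b * (n1 * n2) ≡ b [MOD n2] := by
      have e : b * (n1 * n2) = (b * n1) * n2 := by ring
      rw [e]
      simpa [Nat.ModEq] using hc2
    have hbig : b ≤ c + b * (n1 * n2) := by
      have : 1 ≤ n1 * n2 := Nat.mul_pos hn1 hn2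
      nlinarith
    have hq1 : q1 ≤ a := (le_max_left _ _).trans ha
    have hq2 : q2 ≤ a := (le_max_right _ _).trans ha
    exact κ.trans (κ.symm (h1 _ _ (by omega) hq1 hc1')) (h2 _ _ (by omega) (by omega) hc2')
  have e1 := big a ha (q1 + q2)
  have e2 := big b hb (q1 + q2)
  have hpos : 1 ≤ n1 * n2 := Nat.mul_pos hn1 hn2
  have hl : ∀ x, max q1 q2 ≤ x + (q1 + q2) * (n1 * n2) := by
    intro x
    have : q1 + q2 ≤ (q1 + q2) * (n1 * n2) := by nlinarith
    exact max_le (by omega) (by omega)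
  have hmod : a + (q1 + q2) * (n1 * n2) ≡ b + (q1 + q2) * (n1 * n2) [MOD Nat.gcd n1 n2] :=
    hab.add_right _
  rcases le_total a b with h | h
  · exact κ.trans e1 (κ.trans (large _ _ (hl a) (by omega) hmod) (κ.symm e2))
  · exact κ.trans e1 (κ.trans (κ.symm (large _ _ (hl b) (by omega) hmod.symm)) (κ.symm e2))

/-- **Distributivity.** `κ` is any congruence above `ρ` and above the intersection of `σ`, `τ`. -/
theorem distrib (ρ σ τ κ : NC) (hρ : ∀ a b, ρ.r a b → κ.r a b)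
    (hστ : ∀ a b, σ.r a b → τ.r a b → κ.r a b) {a b : ℕ}
    (h1 : Relation.ReflTransGen (fun a b => ρ.r a b ∨ σ.r a b) a b)
    (h2 : Relation.ReflTransGen (fun a b => ρ.r a b ∨ τ.r a b) a b) : κ.r a b := by
  rcases ρ.rep with hρt | ⟨q, n, hn, hρr⟩
  · -- `ρ` trivial
    have k1 : ∀ (θ : NC) {a b : ℕ}, Relation.ReflTransGen (fun a b => ρ.r a b ∨ θ.r a b) a b →
        θ.r a b := by
      intro θ a b h
      induction h with
      | refl => exact θ.refl _
      | tail _ h2 ih =>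
        rcases h2 with h2 | h2
        · rw [← hρt _ _ h2]; exact ih
        · exact θ.trans ih h2
    exact hστ _ _ (k1 σ h1) (k1 τ h2)
  have k2 : ∀ (θ : NC), (∀ a b, θ.r a b → a = b) → ∀ {a b : ℕ},
      Relation.ReflTransGen (fun a b => ρ.r a b ∨ θ.r a b) a b → κ.r a b := by
    intro θ hθ a b h
    induction h with
    | refl => exact κ.refl _
    | tail _ h2 ih =>
      rcases h2 with h2 | h2
      · exact κ.trans ih (hρ _ _ h2)
      · rw [← hθ _ _ h2]; exact ih
  rcases σ.rep with hσt | ⟨q1, n1, hn1, hσr⟩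
  · exact k2 σ hσt h1
  rcases τ.rep with hτt | ⟨q2, n2, hn2, hτr⟩
  · exact k2 τ hτt h2
  have j1 := join_le (q1 := q) (n1 := n) (q2 := q1) (n2 := n1)
    (R := fun a b => ρ.r a b ∨ σ.r a b)
    (fun a b h => h.elim (fun h => Or.inl ((hρr a b).1 h)) (fun h => Or.inr ((hσr a b).1 h))) h1
  have j2 := join_le (q1 := q) (n1 := n) (q2 := q2) (n2 := n2)
    (R := fun a b => ρ.r a b ∨ τ.r a b)
    (fun a b h => h.elim (fun h => Or.inl ((hρr a b).1 h)) (fun h => Or.inr ((hτr a b).1 h))) h2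
  rcases j1 with rfl | ⟨a1, b1, m1⟩
  · exact κ.refl _
  rcases j2 with rfl | ⟨a2, b2, m2⟩
  · exact κ.refl _
  have hm : a ≡ b [MOD Nat.gcd n (Nat.lcm n1 n2)] := by
    rcases le_total a b with h | h
    · rw [Nat.modEq_iff_dvd' h] at m1 m2 ⊢
      exact gcd_lcm_dvd hn hn1 hn2 m1 m2
    · apply Nat.ModEq.symm
      have m1' := m1.symm
      have m2' := m2.symm
      rw [Nat.modEq_iff_dvd' h] at m1' m2' ⊢
      exact gcd_lcm_dvd hn hn1 hn2 m1' m2'
  refine le_join (q1 := q) (n1 := n) (q2 := max q1 q2) (n2 := Nat.lcm n1 n2) hn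
    (Nat.pos_of_ne_zero (Nat.lcm_ne_zero (by omega) (by omega)))
    (fun a b ha hb h => hρ _ _ ((hρr a b).2 (Or.inr ⟨ha, hb, h⟩)))
    (fun a b ha hb h => hστ _ _
      ((hσr a b).2 (Or.inr ⟨(le_max_left _ _).trans ha, (le_max_left _ _).trans hb,
        h.of_dvd (Nat.dvd_lcm_left _ _)⟩))
      ((hτr a b).2 (Or.inr ⟨(le_max_right _ _).trans ha, (le_max_right _ _).trans hb,
        h.of_dvd (Nat.dvd_lcm_right _ _)⟩))) ?_ ?_ hm
  · omega
  · omega

end NC

end Pool.Agent.Helper4_MV
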