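import Pool.Agent.Helper14_MV.Bridge
import Pool.Agent.Helper4_MV.NatCon

/-!
# Monoid varieties satisfying `xyx = x²y`: a criterion for distributivity
-/

namespace Pool.Agent.Helper4_MV

open Pool.Agent.Helper14_MV

/-- number of occurrences -/
def cnt (i : ℕ) (w : Word) : ℕ := List.count i (FreeMonoid.toList w)

@[simp] theorem cnt_one (i : ℕ) : cnt i 1 = 0 := rfl

@[simp] theorem cnt_mul (i : ℕ) (u v : Word) : cnt i (u * v) = cnt i u + cnt i v := by
  simp [cnt, List.count_append]

@[simp] theorem cnt_of (i j : ℕ) : cnt i (FreeMonoid.of j) = if j = i then 1 else 0 := by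
  unfold cnt
  have : FreeMonoid.toList (FreeMonoid.of j) = [j] := rfl
  rw [this, List.count_singleton]
  by_cases h : j = i <;> simp [h]

@[simp] theorem cnt_pow (i : ℕ) (u : Word) (k : ℕ) : cnt i (u ^ k) = k * cnt i u := by
  induction k with
  | zero => simp
  | succ k ih => rw [pow_succ, cnt_mul, ih]; ring

/-- erase all letters other than `i` and `j` -/
def er (i j : ℕ) : Word →* Word :=
  FreeMonoid.lift fun l => if l = i ∨ l = j then FreeMonoid.of l else 1

theorem er_of (i j l : ℕ) :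
    er i j (FreeMonoid.of l) = if l = i ∨ l = j then FreeMonoid.of l else 1 := by
  simp [er]

theorem er_self (i : ℕ) (w : Word) : er i i w = FreeMonoid.of i ^ cnt i w := by
  induction w using FreeMonoid.inductionOn' with
  | one => simp
  | of_mul a u ih =>
    rw [map_mul, ih, er_of, cnt_mul, cnt_of]
    by_cases h : a = i
    · subst h; simp [pow_add]
    · simp [h]

/-- product of powers of letters -/
def nfw (L : List ℕ) (c : ℕ → ℕ) : Word := (L.map fun i => (FreeMonoid.of i : Word) ^ c i).prod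

@[simp] theorem nfw_nil (c : ℕ → ℕ) : nfw [] c = 1 := rfl

@[simp] theorem nfw_cons (i : ℕ) (L : List ℕ) (c : ℕ → ℕ) :
    nfw (i :: L) c = FreeMonoid.of i ^ c i * nfw L c := by simp [nfw]

@[simp] theorem nfw_append (L L' : List ℕ) (c : ℕ → ℕ) :
    nfw (L ++ L') c = nfw L c * nfw L' c := by simp [nfw]

theorem nfw_congr {L : List ℕ} {c c' : ℕ → ℕ} (h : ∀ i ∈ L, c i = c' i) : nfw L c = nfw L c' := by
  unfold nfw
  congr 1
  exact List.map_congr_left fun i hi => by rw [h i hi]

theorem nfw_eq_one {L : List ℕ} {c : ℕ → ℕ} (h : ∀ i ∈ L, c i = 0) : nfw L c = 1 := by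
  induction L with
  | nil => rfl
  | cons a L ih =>
    rw [nfw_cons, ih (fun i hi => h i (List.mem_cons_of_mem _ hi)), h a (List.mem_cons_self ..)]
    simp

section
variable {ρ : FIC}

theorem rel_pow_of (i : ℕ) {a b : ℕ} :
    ρ.r (FreeMonoid.of i ^ a) (FreeMonoid.of i ^ b) ↔ ρ.r (lx ^ a) (lx ^ b) := by
  constructor
  · intro h
    have := ρ.sub (FreeMonoid.lift fun _ => lx) h
    simpa using this
  · intro h
    have := ρ.sub (FreeMonoid.lift fun _ => FreeMonoid.of i) h
    simpa [lx] using this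

theorem rel_pow {a b : ℕ} (h : ρ.r (lx ^ a) (lx ^ b)) (w : Word) : ρ.r (w ^ a) (w ^ b) := by
  have := ρ.sub (FreeMonoid.lift fun _ => w) h
  simpa [lx] using this

/-- the gathering rule -/
theorem gather (h1 : ρ.r (lx * ly * lx) (lx ^ 2 * ly)) (i : ℕ) (w : Word) :
    ρ.r (FreeMonoid.of i * w * FreeMonoid.of i) (FreeMonoid.of i ^ 2 * w) := by
  have := ρ.sub (FreeMonoid.lift fun l => if l = 0 then FreeMonoid.of i else w) h1
  simpa [lx, ly] using this

theorem gather' (h1 : ρ.r (lx * ly * lx) (lx ^ 2 * ly)) (i : ℕ) (w : Word) {k : ℕ} (hk : 1 ≤ k) :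
    ρ.r (FreeMonoid.of i ^ k * w * FreeMonoid.of i) (FreeMonoid.of i ^ (k + 1) * w) := by
  obtain ⟨m, rfl⟩ := Nat.exists_eq_add_of_le hk
  have := ρ.mulL (FreeMonoid.of i ^ m) (gather h1 i w)
  have e1 : FreeMonoid.of i ^ m * (FreeMonoid.of i * w * FreeMonoid.of i)
      = FreeMonoid.of i ^ (1 + m) * w * FreeMonoid.of i := by
    rw [add_comm 1 m, pow_succ]; simp only [mul_assoc]
  have e2 : FreeMonoid.of i ^ m * (FreeMonoid.of i ^ 2 * w) = FreeMonoid.of i ^ (1 + m + 1) * w := by
    rw [← mul_assoc, ← pow_add]; congr 2; omega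
  rw [e1, e2] at this
  exact this

/-- the commutation set -/
def Cm (ρ : FIC) (e f : ℕ) : Prop := ρ.r (lx ^ e * ly ^ f) (ly ^ f * lx ^ e)

theorem Cm.of {e f : ℕ} (h : Cm ρ e f) (v w : Word) : ρ.r (v ^ e * w ^ f) (w ^ f * v ^ e) := by
  have := ρ.sub (FreeMonoid.lift fun l => if l = 0 then v else w) h
  simpa [lx, ly] using this

theorem Cm.symm {e f : ℕ} (h : Cm ρ e f) : Cm ρ f e := ρ.symm (h.of ly lx)

theorem cm_iff {e f i j : ℕ} (hij : i ≠ j) :
    ρ.r (FreeMonoid.of i ^ e * FreeMonoid.of j ^ f) (FreeMonoid.of j ^ f * FreeMonoid.of i ^ e) ↔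
      Cm ρ e f := by
  constructor
  · intro h
    have := ρ.sub (FreeMonoid.lift fun l => if l = i then lx else ly) h
    simpa [hij.symm, Cm] using this
  · intro h
    exact h.of _ _

theorem Cm.up (h1 : ρ.r (lx * ly * lx) (lx ^ 2 * ly)) {e f : ℕ} (he : 1 ≤ e) (h : Cm ρ e f) :
    Cm ρ (e + 1) f := by
  have h2 := ρ.mulR lx h
  have h3 := gather' h1 0 (ly ^ f) he
  unfold Cm
  refine ρ.trans (ρ.symm h3) ?_
  have e2 : ly ^ f * lx ^ e * lx = ly ^ f * lx ^ (e + 1) := by rw [mul_assoc, ← pow_succ]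
  rw [← e2]
  exact h2

theorem Cm.up' (h1 : ρ.r (lx * ly * lx) (lx ^ 2 * ly)) {e f e' f' : ℕ} (he : 1 ≤ e) (hf : 1 ≤ f)
    (h : Cm ρ e f) (he' : e ≤ e') (hf' : f ≤ f') : Cm ρ e' f' := by
  have key : ∀ {e f : ℕ}, 1 ≤ e → Cm ρ e f → ∀ k, Cm ρ (e + k) f := by
    intro e f he h k
    induction k with
    | zero => exact h
    | succ k ih =>
      have h5 : 1 ≤ e + k := by omega
      exact Cm.up h1 h5 ih
  obtain ⟨a, rfl⟩ := Nat.exists_eq_add_of_le he'
  obtain ⟨b, rfl⟩ := Nat.exists_eq_add_of_le hf'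
  exact (key hf (key he h a).symm b).symm

theorem Cm.zero_left (f : ℕ) : Cm ρ 0 f := by
  unfold Cm; simpa using ρ.refl _

theorem Cm.zero_right (e : ℕ) : Cm ρ e 0 := by
  unfold Cm; simpa using ρ.refl _

/-- transport of `Cm` along changes of exponents -/
theorem Cm.congr {e f e' f' : ℕ} (h : Cm ρ e f) (he : ρ.r (lx ^ e) (lx ^ e'))
    (hf : ρ.r (lx ^ f) (lx ^ f')) : Cm ρ e' f' := by
  have hf' := rel_pow hf ly
  exact ρ.trans (ρ.mul (ρ.symm he) (ρ.symm hf')) (ρ.trans h (ρ.mul hf' he))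

/-- a relation `x^a = 1` makes everything commutative -/
theorem comm_of_one (h1 : ρ.r (lx * ly * lx) (lx ^ 2 * ly)) {a : ℕ} (ha : 1 ≤ a)
    (h : ρ.r (lx ^ a) 1) : Cm ρ 1 1 := by
  obtain ⟨m, rfl⟩ := Nat.exists_eq_add_of_le ha
  have h2 := ρ.mulL (lx ^ m) h1
  have e1 : lx ^ m * (lx * ly * lx) = lx ^ (1 + m) * (ly * lx) := by
    rw [add_comm 1 m, pow_succ]; simp only [mul_assoc]
  have e2 : lx ^ m * (lx ^ 2 * ly) = lx ^ (1 + m) * (lx * ly) := by
    rw [← mul_assoc, ← pow_add, ← mul_assoc, ← pow_succ]; congr 2; omega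
  rw [e1, e2] at h2
  have h3 : ρ.r (lx ^ (1 + m) * (ly * lx)) (ly * lx) := by
    simpa using ρ.mulR (ly * lx) h
  have h4 : ρ.r (lx ^ (1 + m) * (lx * ly)) (lx * ly) := by
    simpa using ρ.mulR (lx * ly) h
  have h5 : ρ.r (ly * lx) (lx * ly) := ρ.trans (ρ.symm h3) (ρ.trans h2 h4)
  unfold Cm
  simpa using ρ.symm h5

theorem Cm.all (h1 : ρ.r (lx * ly * lx) (lx ^ 2 * ly)) (h : Cm ρ 1 1) (e f : ℕ) : Cm ρ e f := by
  rcases Nat.eq_zero_or_pos e with rfl | he
  · exact Cm.zero_left f
  rcases Nat.eq_zero_or_pos f with rfl | hf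
  · exact Cm.zero_right e
  exact h.up' h1 le_rfl le_rfl he hf

/-! ### normal forms -/

theorem exists_nf (h1 : ρ.r (lx * ly * lx) (lx ^ 2 * ly)) (l : List ℕ) :
    ∃ L : List ℕ, L.Nodup ∧ (∀ i, i ∈ L ↔ cnt i (FreeMonoid.ofList l) ≠ 0) ∧
      ρ.r (FreeMonoid.ofList l) (nfw L fun i => cnt i (FreeMonoid.ofList l)) := by
  induction l using List.reverseRecOn with
  | nil => exact ⟨[], List.nodup_nil, by simp, by simpa using ρ.refl _⟩
  | append_singleton l a ih =>
    obtain ⟨L, hL, hm, hr⟩ := ih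
    have ha : FreeMonoid.ofList (l ++ [a]) = FreeMonoid.ofList l * FreeMonoid.of a := rfl
    rw [ha]
    have hr2 := ρ.mulR (FreeMonoid.of a) hr
    by_cases hmem : a ∈ L
    · obtain ⟨L1, L2, rfl⟩ := List.append_of_mem hmem
      have hnd := hL
      rw [List.nodup_append, List.nodup_cons] at hnd
      obtain ⟨-, ⟨ha2, -⟩, hdis⟩ := hnd
      have ha1 : a ∉ L1 := fun h => hdis a h a (List.mem_cons_self ..) rfl
      refine ⟨L1 ++ a :: L2, hL, ?_, ?_⟩
      · intro i
        rw [hm i, cnt_mul, cnt_of]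
        by_cases h : a = i
        · subst h
          have := (hm a).1 hmem
          simp [this]
        · simp [h]
      · refine ρ.trans hr2 ?_
        rw [nfw_append, nfw_cons, nfw_append, nfw_cons]
        have e1 : nfw L1 (fun i => cnt i (FreeMonoid.ofList l * FreeMonoid.of a))
            = nfw L1 (fun i => cnt i (FreeMonoid.ofList l)) := by
          apply nfw_congr
          intro i hi
          have : a ≠ i := fun h => ha1 (h ▸ hi)
          simp [this]
        have e2 : nfw L2 (fun i => cnt i (FreeMonoid.ofList l * FreeMonoid.of a))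
            = nfw L2 (fun i => cnt i (FreeMonoid.ofList l)) := by
          apply nfw_congr
          intro i hi
          have : a ≠ i := fun h => ha2 (h ▸ hi)
          simp [this]
        rw [e1, e2]
        have e3 : cnt a (FreeMonoid.ofList l * FreeMonoid.of a) = cnt a (FreeMonoid.ofList l) + 1 := by
          simp
        rw [e3]
        have h5 := gather' h1 a (nfw L2 fun i => cnt i (FreeMonoid.ofList l))
          (Nat.one_le_iff_ne_zero.2 ((hm a).1 hmem))
        have h6 := ρ.mulL (nfw L1 fun i => cnt i (FreeMonoid.ofList l)) h5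
        simpa only [mul_assoc] using h6
    · refine ⟨L ++ [a], ?_, ?_, ?_⟩
      · rw [List.nodup_append]
        refine ⟨hL, List.nodup_singleton a, ?_⟩
        intro b hb c hc
        rw [List.mem_singleton] at hc
        rintro rfl
        exact hmem (hc ▸ hb)
      · intro i
        rw [List.mem_append, hm i, cnt_mul, cnt_of, List.mem_singleton]
        by_cases h : a = i
        · subst h; simp
        · have : ¬ i = a := fun h' => h h'.symm
          simp [h, this]
      · refine ρ.trans hr2 ?_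
        rw [nfw_append, nfw_cons, nfw_nil, mul_one]
        have e1 : nfw L (fun i => cnt i (FreeMonoid.ofList l * FreeMonoid.of a))
            = nfw L (fun i => cnt i (FreeMonoid.ofList l)) := by
          apply nfw_congr
          intro i hi
          have : a ≠ i := fun h => hmem (h ▸ hi)
          simp [this]
        have e0 : cnt a (FreeMonoid.ofList l) = 0 := by
          by_contra h
          exact hmem ((hm a).2 h)
        have e3 : cnt a (FreeMonoid.ofList l * FreeMonoid.of a) = 1 := by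
          simp [e0]
        rw [e1, e3, pow_one]
        exact ρ.refl _

/-- normal form with respect to a prescribed finite set of letters -/
theorem exists_nf' (h1 : ρ.r (lx * ly * lx) (lx ^ 2 * ly)) (u : Word) (S : Finset ℕ)
    (hS : ∀ i, cnt i u ≠ 0 → i ∈ S) :
    ∃ L : List ℕ, L.Nodup ∧ (∀ i, i ∈ L ↔ i ∈ S) ∧ ρ.r u (nfw L fun i => cnt i u) := by
  classical
  obtain ⟨L, hL, hm, hr⟩ := exists_nf h1 (FreeMonoid.toList u)
  have hu : FreeMonoid.ofList (FreeMonoid.toList u) = u := rfl
  rw [hu] at hr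
  simp only [hu] at hm
  refine ⟨L ++ S.toList.filter (fun i => i ∉ L), ?_, ?_, ?_⟩
  · rw [List.nodup_append]
    refine ⟨hL, (S.nodup_toList).filter _, ?_⟩
    intro a ha b hb
    rw [List.mem_filter] at hb
    rintro rfl
    simpa [ha] using hb.2
  · intro i
    rw [List.mem_append, List.mem_filter]
    simp only [Finset.mem_toList, decide_eq_true_eq]
    constructor
    · rintro (h | h)
      · exact hS i ((hm i).1 h)
      · exact h.1
    · intro h
      by_cases h' : i ∈ L
      · exact Or.inl h'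
      · exact Or.inr ⟨h, h'⟩
  · rw [nfw_append]
    have e : nfw (S.toList.filter (fun i => i ∉ L)) (fun i => cnt i u) = 1 := by
      apply nfw_eq_one
      intro i hi
      rw [List.mem_filter] at hi
      by_contra h
      have := (hm i).2 h
      simpa [this] using hi.2
    rw [e, mul_one]
    exact hr

/-- move a power to the front -/
theorem move_front {L : List ℕ} {c : ℕ → ℕ} {y : ℕ}
    (h : ∀ i ∈ L, ρ.r (FreeMonoid.of i ^ c i * FreeMonoid.of y ^ c y)
      (FreeMonoid.of y ^ c y * FreeMonoid.of i ^ c i)) :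
    ρ.r (nfw L c * FreeMonoid.of y ^ c y) (FreeMonoid.of y ^ c y * nfw L c) := by
  induction L with
  | nil => simpa using ρ.refl _
  | cons a L ih =>
    have h1 := ρ.mulL (FreeMonoid.of a ^ c a) (ih fun i hi => h i (List.mem_cons_of_mem _ hi))
    have h2 := ρ.mulR (nfw L c) (h a (List.mem_cons_self ..))
    rw [nfw_cons]
    simp only [mul_assoc] at h1 h2 ⊢
    exact ρ.trans h1 h2

/-- sorting -/
theorem sort_nf {c : ℕ → ℕ} : ∀ (L' L : List ℕ), L.Nodup → L'.Nodup → L.Perm L' →
    (∀ i j, [i, j].Sublist L → [j, i].Sublist L' →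
      ρ.r (FreeMonoid.of i ^ c i * FreeMonoid.of j ^ c j)
        (FreeMonoid.of j ^ c j * FreeMonoid.of i ^ c i)) →
    ρ.r (nfw L c) (nfw L' c) := by
  intro L'
  induction L' with
  | nil =>
    intro L _ _ hp _
    rw [hp.eq_nil]
    exact ρ.refl _
  | cons y L'' ih =>
    intro L hL hL' hp H
    have hy : y ∈ L := hp.mem_iff.2 (List.mem_cons_self ..)
    obtain ⟨L1, L2, rfl⟩ := List.append_of_mem hy
    have hp2 : (L1 ++ L2).Perm L'' := by
      have h3 : (L1 ++ y :: L2).Perm (y :: (L1 ++ L2)) := List.perm_middle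
      exact (List.perm_cons y).1 (h3.symm.trans hp)
    have hnd2 : (L1 ++ L2).Nodup := by
      have h3 : (L1 ++ y :: L2).Perm (y :: (L1 ++ L2)) := List.perm_middle
      exact (List.nodup_cons.1 (h3.nodup_iff.1 hL)).2
    have hsub : (L1 ++ L2).Sublist (L1 ++ y :: L2) :=
      List.Sublist.append_left (List.sublist_cons_self y L2) L1
    have h4 : ρ.r (nfw (L1 ++ L2) c) (nfw L'' c) := by
      refine ih _ hnd2 (List.nodup_cons.1 hL').2 hp2 ?_
      intro i j hij hji
      exact H i j (hij.trans hsub) (hji.trans (List.sublist_cons_self y L''))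
    have h5 : ρ.r (nfw L1 c * FreeMonoid.of y ^ c y) (FreeMonoid.of y ^ c y * nfw L1 c) := by
      apply move_front
      intro i hi
      apply H i y
      · have e1 : [i].Sublist L1 := List.singleton_sublist.2 hi
        have e2 : [y].Sublist (y :: L2) := List.singleton_sublist.2 (List.mem_cons_self ..)
        exact e1.append e2
      · have e1 : i ∈ L'' := hp2.mem_iff.1 (List.mem_append_left _ hi)
        exact List.Sublist.cons_cons y (List.singleton_sublist.2 e1)
    have h6 := ρ.mulR (nfw L2 c) h5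
    have h7 := ρ.mulL (FreeMonoid.of y ^ c y) h4
    rw [nfw_append, nfw_cons, nfw_cons]
    rw [nfw_append] at h7
    simp only [mul_assoc] at h6 h7 ⊢
    exact ρ.trans h6 h7

theorem nfw_change {L : List ℕ} {c c' : ℕ → ℕ} (h : ∀ i ∈ L, ρ.r (lx ^ c i) (lx ^ c' i)) :
    ρ.r (nfw L c) (nfw L c') := by
  induction L with
  | nil => exact ρ.refl _
  | cons a L ih =>
    rw [nfw_cons, nfw_cons]
    exact ρ.mul (rel_pow (h a (List.mem_cons_self ..)) _)
      (ih fun i hi => h i (List.mem_cons_of_mem _ hi))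

theorem er_nfw_not {i j : ℕ} {L : List ℕ} {c : ℕ → ℕ} (hi : i ∉ L) (hj : j ∉ L) :
    er i j (nfw L c) = 1 := by
  induction L with
  | nil => simp
  | cons a L ih =>
    rw [List.mem_cons, not_or] at hi hj
    have h1 : ¬ (a = i ∨ a = j) := by
      rintro (h | h)
      · exact hi.1 h.symm
      · exact hj.1 h.symm
    rw [nfw_cons, map_mul, map_pow, er_of, if_neg h1, one_pow, one_mul, ih hi.2 hj.2]

theorem er_nfw {i j : ℕ} (hij : i ≠ j) {L : List ℕ} (hL : L.Nodup) {c : ℕ → ℕ}
    (h : [i, j].Sublist L) :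
    er i j (nfw L c) = FreeMonoid.of i ^ c i * FreeMonoid.of j ^ c j := by
  induction L with
  | nil => simp at h
  | cons a L ih =>
    rw [List.nodup_cons] at hL
    rw [nfw_cons, map_mul, map_pow, er_of]
    by_cases hai : a = i
    · subst hai
      rw [if_pos (Or.inl rfl)]
      congr 1
      -- `j ∈ L`
      have hj : j ∈ L := by
        have h2 := h.subset (show j ∈ [a, j] by simp)
        rcases List.mem_cons.1 h2 with h3 | h3
        · exact absurd h3.symm hij
        · exact h3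
      obtain ⟨L1, L2, rfl⟩ := List.append_of_mem hj
      have hnd := hL.2
      rw [List.nodup_append, List.nodup_cons] at hnd
      obtain ⟨-, ⟨hj2, -⟩, hdis⟩ := hnd
      have hj1 : j ∉ L1 := fun h => hdis j h j (List.mem_cons_self ..) rfl
      have ha1 : a ∉ L1 := fun h => hL.1 (List.mem_append_left _ h)
      have ha2 : a ∉ L2 := fun h => hL.1 (List.mem_append_right _ (List.mem_cons_of_mem _ h))
      rw [nfw_append, nfw_cons, map_mul, map_mul, map_pow, er_nfw_not ha1 hj1, er_nfw_not ha2 hj2,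
        er_of, if_pos (Or.inr rfl)]
      simp
    · have h2 : [i, j].Sublist L := by
        rcases List.sublist_cons_iff.1 h with h2 | ⟨r, hr, _⟩
        · exact h2
        · exfalso
          rw [List.cons.injEq] at hr
          exact hai hr.1.symm
      have haj : a ≠ j := by
        rintro rfl
        exact hL.1 (h2.subset (by simp))
      rw [if_neg (by simp [hai, haj]), one_pow, one_mul, ih hL.2 h2]

end

/-! ### the main theorem -/

/-- the one-step condition -/
def Stp (β : FIC) : Prop := ∀ ρ : FIC, β ≤ ρ → ∀ a b a' b' : ℕ, 1 ≤ a → 1 ≤ b → 1 ≤ a' → 1 ≤ b' →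
  ρ.r (lx ^ a) (lx ^ a') → ρ.r (lx ^ b) (lx ^ b') →
    Cm ρ a b ∨ (∀ ρ' : FIC, β ≤ ρ' → Cm ρ' a' b' → Cm ρ' a b)

/-- one letter part -/
def nc (ρ : FIC) : NC where
  r := fun a b => ρ.r (lx ^ a) (lx ^ b)
  refl := fun _ => ρ.refl _
  symm := fun h => ρ.symm h
  trans := fun h k => ρ.trans h k
  add := fun c h => by rw [pow_add, pow_add]; exact ρ.mulR _ h

theorem one_letter {θ : FIC} {i : ℕ} {w w' : Word} (h : θ.r w w') :
    θ.r (lx ^ cnt i w) (lx ^ cnt i w') := by
  have h1 := θ.sub (er i i) h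
  rw [er_self, er_self] at h1
  exact (rel_pow_of i).1 h1

theorem one_chain {ρ σ : FIC} {i : ℕ} {w w' : Word} (h : (FIC.sup ρ σ).r w w') :
    Relation.ReflTransGen (fun a b => (nc ρ).r a b ∨ (nc σ).r a b) (cnt i w) (cnt i w') := by
  have h' : Relation.ReflTransGen (FIC.stp ρ σ) w w' := h
  induction h' with
  | refl => exact Relation.ReflTransGen.refl
  | tail h0 h2 ih =>
    refine (ih h0).tail ?_
    rcases h2 with h2 | h2
    · exact Or.inl (one_letter h2)
    · exact Or.inr (one_letter h2)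

/-- one letter part of the distributive law -/
theorem one_distrib {ρ σ τ : FIC} {i : ℕ} {u v : Word} (h1 : (FIC.sup ρ σ).r u v)
    (h2 : (FIC.sup ρ τ).r u v) :
    (FIC.sup ρ (FIC.inf σ τ)).r (lx ^ cnt i u) (lx ^ cnt i v) := by
  refine NC.distrib (nc ρ) (nc σ) (nc τ) (nc (FIC.sup ρ (FIC.inf σ τ))) ?_ ?_
    (one_chain h1) (one_chain h2)
  · intro a b h
    exact FIC.le_sup_left _ _ _ _ h
  · intro a b h h'
    exact FIC.le_sup_right _ _ _ _ ⟨h, h'⟩

/-- the commutation set of a join -/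
theorem cm_sup {β ρ σ : FIC} (h1 : β.r (lx * ly * lx) (lx ^ 2 * ly)) (hst : Stp β) (hρ : β ≤ ρ)
    (hσ : β ≤ σ) {e f : ℕ} (h : Cm (FIC.sup ρ σ) e f) : Cm ρ e f ∨ Cm σ e f := by
  rcases Nat.eq_zero_or_pos e with rfl | he
  · exact Or.inl (Cm.zero_left f)
  rcases Nat.eq_zero_or_pos f with rfl | hf
  · exact Or.inl (Cm.zero_right e)
  -- invariant
  let Inv : Word → Prop := fun w => (Cm ρ e f ∨ Cm σ e f) ∨
    (1 ≤ cnt 0 w ∧ 1 ≤ cnt 1 w ∧ β.r (er 0 1 w) (lx ^ cnt 0 w * ly ^ cnt 1 w) ∧
      ∀ ρ' : FIC, β ≤ ρ' → Cm ρ' (cnt 0 w) (cnt 1 w) → Cm ρ' e f)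
  -- normal form of words in two letters
  have nf2 : ∀ w : Word, β.r (er 0 1 w) (lx ^ cnt 0 w * ly ^ cnt 1 w) ∨
      β.r (er 0 1 w) (ly ^ cnt 1 w * lx ^ cnt 0 w) := by
    intro w
    obtain ⟨S, hS⟩ : ∃ S : Finset ℕ, (∀ i, cnt i w ≠ 0 → i ∈ S) ∧ 0 ∈ S ∧ 1 ∈ S := by
      classical
      refine ⟨(FreeMonoid.toList w).toFinset ∪ {0, 1}, ?_, by simp, by simp⟩
      intro i hi
      have : i ∈ FreeMonoid.toList w := by
        by_contra h'
        exact hi (List.count_eq_zero_of_not_mem h')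
      simp [this]
    obtain ⟨L, hL, hm, hr⟩ := exists_nf' h1 w S hS.1
    have h0 : 0 ∈ L := (hm 0).2 hS.2.1
    have h1' : 1 ∈ L := (hm 1).2 hS.2.2
    have hr2 := β.sub (er 0 1) hr
    have hcase : [0, 1].Sublist L ∨ [1, 0].Sublist L := by
      obtain ⟨L1, L2, rfl⟩ := List.append_of_mem h0
      rcases List.mem_append.1 h1' with h | h
      · right
        exact (List.singleton_sublist.2 h).append
          (List.singleton_sublist.2 (List.mem_cons_self ..))
      · left
        rcases List.mem_cons.1 h with h | h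
        · exact absurd h (by decide)
        · exact (List.Sublist.cons_cons 0 (List.singleton_sublist.2 h)).trans
            (List.sublist_append_right L1 _)
    rcases hcase with h | h
    · left
      rw [er_nfw (by decide) hL h] at hr2
      exact hr2
    · right
      have e : er 0 1 (nfw L fun i => cnt i w) = er 1 0 (nfw L fun i => cnt i w) := by
        have : er 0 1 = er 1 0 := by
          apply FreeMonoid.hom_eq
          intro l
          rw [er_of, er_of]
          simp only [or_comm]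
        rw [this]
      rw [e, er_nfw (by decide) hL h] at hr2
      exact hr2
  have step : ∀ θ : FIC, β ≤ θ → (Cm θ e f → (Cm ρ e f ∨ Cm σ e f)) → ∀ w w' : Word, θ.r w w' →
      Inv w → Inv w' := by
    intro θ hθ hdone w w' hw hI
    rcases hI with hI | ⟨c0, c1, hr, hK⟩
    · exact Or.inl hI
    have h1θ : θ.r (lx * ly * lx) (lx ^ 2 * ly) := hθ _ _ h1
    have o0 : θ.r (lx ^ cnt 0 w) (lx ^ cnt 0 w') := one_letter hw
    have o1 : θ.r (lx ^ cnt 1 w) (lx ^ cnt 1 w') := one_letter hw
    rcases Nat.eq_zero_or_pos (cnt 0 w') with z0 | z0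
    · left
      apply hdone
      rw [z0, pow_zero] at o0
      exact (comm_of_one h1θ c0 o0).all h1θ e f
    rcases Nat.eq_zero_or_pos (cnt 1 w') with z1 | z1
    · left
      apply hdone
      rw [z1, pow_zero] at o1
      exact (comm_of_one h1θ c1 o1).all h1θ e f
    have hww : θ.r (er 0 1 w) (er 0 1 w') := θ.sub _ hw
    rcases nf2 w' with h | h
    · rcases hst θ hθ _ _ _ _ c0 c1 z0 z1 o0 o1 with h3 | h3
      · exact Or.inl (hdone (hK θ hθ h3))
      · right
        exact ⟨z0, z1, h, fun ρ' hρ' hc => hK ρ' hρ' (h3 ρ' hρ' hc)⟩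
    · left
      apply hdone
      apply hK θ hθ
      have h4 : θ.r (lx ^ cnt 0 w * ly ^ cnt 1 w) (ly ^ cnt 1 w' * lx ^ cnt 0 w') :=
        θ.trans (θ.symm (hθ _ _ hr)) (θ.trans hww (hθ _ _ h))
      exact θ.trans h4 (θ.mul (θ.symm (rel_pow o1 ly)) (θ.symm o0))
  have start : Inv (lx ^ e * ly ^ f) := by
    right
    have e0 : cnt 0 (lx ^ e * ly ^ f) = e := by simp [lx, ly]
    have e1 : cnt 1 (lx ^ e * ly ^ f) = f := by simp [lx, ly]
    rw [e0, e1]
    refine ⟨he, hf, ?_, fun _ _ h => h⟩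
    have : er 0 1 (lx ^ e * ly ^ f) = lx ^ e * ly ^ f := by
      rw [map_mul, map_pow, map_pow, lx, ly, er_of, er_of]
      simp
    rw [this]
    exact β.refl _
  have chain : Inv (ly ^ f * lx ^ e) := by
    have h' : Relation.ReflTransGen (FIC.stp ρ σ) (lx ^ e * ly ^ f) (ly ^ f * lx ^ e) := h
    have : ∀ w, Relation.ReflTransGen (FIC.stp ρ σ) (lx ^ e * ly ^ f) w → Inv w := by
      intro w hw
      induction hw with
      | refl => exact start
      | tail _ h2 ih =>
        rcases h2 with h2 | h2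
        · exact step ρ hρ Or.inl _ _ h2 ih
        · exact step σ hσ Or.inr _ _ h2 ih
    exact this _ h'
  rcases chain with h3 | ⟨-, -, h3, -⟩
  · exact h3
  · left
    have e0 : cnt 0 (ly ^ f * lx ^ e) = e := by simp [lx, ly]
    have e1 : cnt 1 (ly ^ f * lx ^ e) = f := by simp [lx, ly]
    rw [e0, e1] at h3
    have : er 0 1 (ly ^ f * lx ^ e) = ly ^ f * lx ^ e := by
      rw [map_mul, map_pow, map_pow, lx, ly, er_of, er_of]
      simp
    rw [this] at h3
    exact hρ _ _ (β.symm h3)

/-- **Criterion for distributivity.** -/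
theorem distF_of_stp {β : FIC} (h1 : β.r (lx * ly * lx) (lx ^ 2 * ly)) (hst : Stp β) :
    DistF β := by
  intro ρ σ τ hρ hσ hτ u v huv1 huv2
  set κ := FIC.sup ρ (FIC.inf σ τ) with hκ
  have hρκ : ρ ≤ κ := FIC.le_sup_left _ _
  have hβκ : β ≤ κ := FIC.le_trans' hρ hρκ
  have hS : ∃ S : Finset ℕ, (∀ i, cnt i u ≠ 0 → i ∈ S) ∧ (∀ i, cnt i v ≠ 0 → i ∈ S) := by
    classical
    refine ⟨(FreeMonoid.toList u).toFinset ∪ (FreeMonoid.toList v).toFinset, ?_, ?_⟩
    · intro i hi
      have : i ∈ FreeMonoid.toList u := by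
        by_contra h'
        exact hi (List.count_eq_zero_of_not_mem h')
      simp [this]
    · intro i hi
      have : i ∈ FreeMonoid.toList v := by
        by_contra h'
        exact hi (List.count_eq_zero_of_not_mem h')
      simp [this]
  obtain ⟨S, hSu, hSv⟩ := hS
  obtain ⟨L, hL, hm, hr⟩ := exists_nf' h1 u S hSu
  obtain ⟨L', hL', hm', hr'⟩ := exists_nf' h1 v S hSv
  have hperm : L.Perm L' := by
    rw [List.perm_ext_iff_of_nodup hL hL']
    intro a
    rw [hm a, hm' a]
  have hone : ∀ i, κ.r (lx ^ cnt i u) (lx ^ cnt i v) := fun i => one_distrib huv1 huv2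
  have step1 : κ.r (nfw L fun i => cnt i u) (nfw L fun i => cnt i v) :=
    nfw_change fun i _ => hone i
  have step2 : κ.r (nfw L fun i => cnt i v) (nfw L' fun i => cnt i v) := by
    refine sort_nf L' L hL hL' hperm ?_
    intro i j hij hji
    have hne : i ≠ j := by
      rintro rfl
      have := hij.nodup hL
      simp at this
    rw [cm_iff hne]
    -- in each of the two joins
    have key : ∀ θ : FIC, β ≤ θ → θ.r u v → Cm θ (cnt i v) (cnt j v) := by
      intro θ hθ huv
      have a1 := θ.sub (er i j) (θ.trans (θ.symm (hθ _ _ hr)) (θ.trans huv (hθ _ _ hr')))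
      have e : er i j (nfw L' fun i => cnt i v) = er j i (nfw L' fun i => cnt i v) := by
        have : er i j = er j i := by
          apply FreeMonoid.hom_eq
          intro l
          rw [er_of, er_of]
          simp only [or_comm]
        rw [this]
      rw [er_nfw hne hL hij, e, er_nfw hne.symm hL' hji] at a1
      rw [← cm_iff hne]
      have o0 : θ.r (lx ^ cnt i u) (lx ^ cnt i v) := one_letter huv
      have o1 : θ.r (lx ^ cnt j u) (lx ^ cnt j v) := one_letter huv
      exact θ.trans (θ.mul (θ.symm (rel_pow o0 _)) (θ.symm (rel_pow o1 _))) a1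
    have k1 := key _ (FIC.le_trans' hρ (FIC.le_sup_left ρ σ)) huv1
    have k2 := key _ (FIC.le_trans' hρ (FIC.le_sup_left ρ τ)) huv2
    rcases cm_sup h1 hst hρ hσ k1 with c1 | c1
    · exact hρκ _ _ c1
    rcases cm_sup h1 hst hρ hτ k2 with c2 | c2
    · exact hρκ _ _ c2
    exact FIC.le_sup_right _ _ _ _ ⟨c1, c2⟩
  exact κ.trans (hβκ _ _ hr) (κ.trans step1 (κ.trans step2 (κ.symm (hβκ _ _ hr'))))

/-- **(C)** -/
theorem C (β : FIC) (h1 : β.r (lx * ly * lx) (lx ^ 2 * ly)) (k : ℕ) (hk : 1 ≤ k)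
    (h2 : β.r (lx ^ k * ly) (ly * lx ^ k)) : DistF β := by
  apply distF_of_stp h1
  have hc : Cm β k 1 := by unfold Cm; simpa using h2
  intro ρ hρ a b a' b' ha hb ha' hb' h3 h4
  have h1ρ := hρ _ _ h1
  have hcρ : Cm ρ k 1 := hρ _ _ hc
  -- if an exponent changes then it is equivalent to a large one
  have key : ∀ a a' b : ℕ, 1 ≤ a → 1 ≤ b → ρ.r (lx ^ a) (lx ^ a') → a ≠ a' → Cm ρ a b := by
    intro a a' b ha hb h hne
    have hl : ∃ c, k ≤ c ∧ ρ.r (lx ^ a) (lx ^ c) := by
      rcases Nat.lt_or_gt_of_ne hne with hlt | hlt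
      · obtain ⟨d, rfl⟩ := Nat.exists_eq_add_of_le hlt.le
        refine ⟨a + k * d, ?_, (nc ρ).mul_step h k⟩
        have : 1 ≤ d := by omega
        nlinarith
      · obtain ⟨d, rfl⟩ := Nat.exists_eq_add_of_le hlt.le
        refine ⟨a' + (k + 1) * d, ?_, ?_⟩
        · have : 1 ≤ d := by omega
          nlinarith
        · exact ρ.trans h ((nc ρ).mul_step (ρ.symm h) (k + 1))
    obtain ⟨c, hc1, hc2⟩ := hl
    have : Cm ρ c b := hcρ.up' h1ρ hk le_rfl hc1 hb
    exact this.congr (ρ.symm hc2) (ρ.refl _)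
  by_cases haa : a = a'
  · by_cases hbb : b = b'
    · right
      intro ρ' _ h
      rw [haa, hbb]; exact h
    · left
      exact (key b b' a hb ha h4 hbb).symm
  · left
    exact key a a' b ha hb h3 haa

/-- **(D)** -/
theorem D (β : FIC) (h1 : β.r (lx * ly * lx) (lx ^ 2 * ly)) (n : ℕ) (hn : 1 ≤ n)
    (h2 : β.r (lx ^ 2) (lx ^ (n + 2))) (h3 : β.r (lx ^ 2 * ly ^ 2) (ly ^ 2 * lx ^ 2)) :
    DistF β := by
  apply distF_of_stp h1
  intro ρ hρ a b a' b' ha hb ha' hb' h4 h5
  have h1ρ := hρ _ _ h1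
  have hc22 : ∀ θ : FIC, β ≤ θ → Cm θ 2 2 := fun θ hθ => hθ _ _ h3
  -- if the exponent one changes then everything commutes
  have one : ∀ c : ℕ, 2 ≤ c → ρ.r (lx ^ 1) (lx ^ c) → Cm ρ 1 1 := by
    intro c hc h
    have h6 : Cm ρ c c := (hc22 ρ hρ).up' h1ρ (by omega) (by omega) hc hc
    exact h6.congr (ρ.symm h) (ρ.symm h)
  -- `(1, f)` for `f ≥ 2`
  have up1 : ∀ θ : FIC, β ≤ θ → ∀ f, 2 ≤ f → Cm θ 1 f → ∀ g, 2 ≤ g → Cm θ 1 g := by
    intro θ hθ f hf h g hg
    have h1θ := hθ _ _ h1
    have hper : θ.r (lx ^ 2) (lx ^ (2 + f * n)) := by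
      have : (nc θ).r 2 (2 + n) := by
        have := hθ _ _ h2
        rw [add_comm n 2] at this
        exact this
      exact (nc θ).mul_step this f
    have h7 : Cm θ 1 (2 + f * n) := h.up' h1θ le_rfl (by omega) le_rfl (by nlinarith)
    have h8 : Cm θ 1 2 := h7.congr (θ.refl _) (θ.symm hper)
    exact h8.up' h1θ le_rfl (by omega) le_rfl hg
  by_cases ha1 : a = 1
  · by_cases ha1' : a' = 1
    · -- `a = a' = 1`
      by_cases hb1 : b = 1
      · by_cases hb1' : b' = 1
        · right; intro ρ' _ h; rw [ha1, hb1]; rw [ha1', hb1'] at h; exact h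
        · left
          subst hb1
          exact (one b' (by omega) h5).all h1ρ _ _
      · by_cases hb1' : b' = 1
        · left
          subst hb1'
          exact (one b (by omega) (ρ.symm h5)).all h1ρ _ _
        · right
          intro ρ' hρ' h
          rw [ha1]
          rw [ha1'] at h
          exact up1 ρ' hρ' b' (by omega) h b (by omega)
    · left
      subst ha1
      exact (one a' (by omega) h4).all h1ρ _ _
  · by_cases ha1' : a' = 1
    · left
      subst ha1'
      exact (one a (by omega) (ρ.symm h4)).all h1ρ _ _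
    · by_cases hb1 : b = 1
      · by_cases hb1' : b' = 1
        · right
          intro ρ' hρ' h
          rw [hb1]
          rw [hb1'] at h
          exact (up1 ρ' hρ' a' (by omega) h.symm a (by omega)).symm
        · left
          subst hb1
          exact (one b' (by omega) h5).all h1ρ _ _
      · left
        exact (hc22 ρ hρ).up' h1ρ (by omega) (by omega) (by omega) (by omega)

end Pool.Agent.Helper4_MV
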